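import Pool.Agent.H71.CO.Targets

/-!
# Linear orders which code sets of natural numbers (row ORS)
-/

set_option autoImplicit false

open Set

namespace Pool.Agent.H51.CO

open Pool.Agent.H71.CO

/-- the points: the sum over `n` of a copy of the integers and (for `n` in `S`) a block -/
abbrev II (S : Set ℕ) : Type :=
  {t : ℕ∞ × Bool × ℤ // t.2.1 = false ∨ ∃ n ∈ S, t.1 = (n : ℕ∞) ∧ 0 ≤ t.2.2 ∧ t.2.2 < (n : ℤ) + 2}

/-- the lexicographic key -/
def key {S : Set ℕ} (t : II S) : ℕ∞ ×ₗ (Bool ×ₗ ℤ) := toLex (t.1.1, toLex (t.1.2.1, t.1.2.2))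

/-- the order -/
def li {S : Set ℕ} (a b : II S) : Prop := key a < key b

theorem li_iff {S : Set ℕ} (a b : II S) :
    li a b ↔ a.1.1 < b.1.1 ∨ (a.1.1 = b.1.1 ∧
      (a.1.2.1 < b.1.2.1 ∨ (a.1.2.1 = b.1.2.1 ∧ a.1.2.2 < b.1.2.2))) := by
  unfold li key
  rw [Prod.Lex.toLex_lt_toLex]
  simp only [Prod.Lex.toLex_lt_toLex]

theorem key_inj {S : Set ℕ} : Function.Injective (key (S := S)) := by
  intro a b h
  unfold key at h
  have h1 := toLex.injective h
  have h2 := Prod.ext_iff.1 h1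
  have h3 := toLex.injective h2.2
  have h4 := Prod.ext_iff.1 h3
  apply Subtype.ext
  exact Prod.ext h2.1 (Prod.ext h4.1 h4.2)

theorem lin_li (S : Set ℕ) : Lin (li (S := S)) where
  irr _ := lt_irrefl _
  tra _ _ _ h h' := lt_trans h h'
  tot _ _ h := lt_or_gt_of_ne (fun e => h (key_inj e))

/-- the points of the copies of the integers -/
def zp {S : Set ℕ} (x : ℕ∞) (z : ℤ) : II S := ⟨(x, false, z), Or.inl rfl⟩

theorem zp_inj {S : Set ℕ} (x : ℕ∞) : Function.Injective (zp (S := S) x) := by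
  intro a b h
  have h1 := congrArg (fun t : II S => t.1.2.2) h
  exact h1

theorem infz {S : Set ℕ} (x : ℕ∞) (Z : Set ℤ) (hZ : Z.Infinite) (A : Set (II S))
    (h : ∀ z ∈ Z, zp x z ∈ A) : A.Infinite := by
  apply (hZ.image (f := zp (S := S) x) (zp_inj x).injOn).mono
  rintro _ ⟨z, hz, rfl⟩
  exact h z hz

theorem inf_above {S : Set ℕ} (k : II S) : {k' | li k k'}.Infinite := by
  apply infz ⊤ (Set.Ioi k.1.2.2) (Set.Ioi_infinite _)
  intro z hz
  show li k (zp ⊤ z)
  rw [li_iff]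
  rcases lt_or_eq_of_le (le_top : k.1.1 ≤ ⊤) with h | h
  · left; exact h
  · right
    refine ⟨h, ?_⟩
    right
    refine ⟨?_, hz⟩
    rcases k.2 with h1 | ⟨n, hn, h1, h2⟩
    · exact h1
    · rw [h] at h1
      exact absurd h1 (by simp)

theorem inf_below {S : Set ℕ} (k : II S) : {k' | li k' k}.Infinite := by
  apply infz 0 (Set.Iio k.1.2.2) (Set.Iio_infinite _)
  intro z hz
  show li (zp 0 z) k
  rw [li_iff]
  rcases lt_or_eq_of_le (zero_le : (0 : ℕ∞) ≤ k.1.1) with h | h
  · left; exact h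
  · right
    refine ⟨h, ?_⟩
    cases hb : k.1.2.1 with
    | false => right; exact ⟨rfl, hz⟩
    | true => left; simp [zp]

/-- the blocks -/
def bp {S : Set ℕ} {m : ℕ} (hm : m ∈ S) (i : Fin (m + 2)) : II S :=
  ⟨((m : ℕ∞), true, (i : ℤ)), Or.inr ⟨m, hm, rfl, by simp, by
    have := i.2
    have h2 : ((i : ℕ) : ℤ) < ((m + 2 : ℕ) : ℤ) := by exact_mod_cast this
    simpa using h2⟩⟩

theorem bp_inj {S : Set ℕ} {m : ℕ} (hm : m ∈ S) : Function.Injective (bp (S := S) hm) := by
  intro a b h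
  have h1 : ((a : ℕ) : ℤ) = ((b : ℕ) : ℤ) := congrArg (fun t : II S => t.1.2.2) h
  apply Fin.ext
  exact_mod_cast h1

theorem blk {S : Set ℕ} {m : ℕ} (hm : m ∈ S) :
    {w : II S | w.1.1 = (m : ℕ∞) ∧ w.1.2.1 = true} = Set.range (bp (S := S) hm) := by
  ext w
  constructor
  · rintro ⟨h1, h2⟩
    rcases w.2 with h3 | ⟨n, hn, h3, h4, h5⟩
    · rw [h2] at h3; exact absurd h3 (by simp)
    · have hnm : n = m := by
        rw [h1] at h3
        exact_mod_cast h3.symm
      subst hnm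
      refine ⟨⟨w.1.2.2.toNat, by omega⟩, ?_⟩
      apply Subtype.ext
      show ((n : ℕ∞), true, ((w.1.2.2.toNat : ℕ) : ℤ)) = w.1
      rw [Int.toNat_of_nonneg h4, ← h2, ← h1]
  · rintro ⟨i, rfl⟩
    exact ⟨rfl, rfl⟩

theorem blk_fin {S : Set ℕ} {m : ℕ} (hm : m ∈ S) :
    {w : II S | w.1.1 = (m : ℕ∞) ∧ w.1.2.1 = true}.Finite := by
  rw [blk hm]
  exact Set.finite_range _

theorem blk_card {S : Set ℕ} {m : ℕ} (hm : m ∈ S) :
    {w : II S | w.1.1 = (m : ℕ∞) ∧ w.1.2.1 = true}.encard = ((m + 2 : ℕ) : ℕ∞) := by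
  rw [blk hm, ← Set.image_univ, (bp_inj hm).injOn.encard_image, Set.encard_univ]
  simp

theorem cls_true {S : Set ℕ} {m : ℕ} (hm : m ∈ S) (w : II S) (h1 : w.1.1 = (m : ℕ∞))
    (h2 : w.1.2.1 = true) :
    {w' | {t | Btw (li (S := S)) w w' t}.Finite} =
      {w' : II S | w'.1.1 = (m : ℕ∞) ∧ w'.1.2.1 = true} := by
  ext w'
  constructor
  · intro hf
    by_contra hc
    apply absurd hf
    rcases lt_trichotomy w'.1.1 (m : ℕ∞) with h | h | h
    · apply infz (m : ℕ∞) Set.univ Set.infinite_univ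
      intro z _
      right
      constructor
      · rw [li_iff]; left; exact h
      · rw [li_iff]; right; refine ⟨h1.symm, ?_⟩; left; rw [h2]; simp [zp]
    · have hb : w'.1.2.1 = false := by
        cases hb : w'.1.2.1 with
        | false => rfl
        | true => exact absurd ⟨h, hb⟩ hc
      apply infz (m : ℕ∞) (Set.Ioi w'.1.2.2) (Set.Ioi_infinite _)
      intro z hz
      right
      constructor
      · rw [li_iff]; right; refine ⟨h, ?_⟩; right; exact ⟨hb, hz⟩
      · rw [li_iff]; right; refine ⟨h1.symm, ?_⟩; left; rw [h2]; simp [zp]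
    · apply infz w'.1.1 (Set.Iio w'.1.2.2) (Set.Iio_infinite _)
      intro z hz
      left
      constructor
      · rw [li_iff]; left; rw [h1]; exact h
      · rw [li_iff]; right; refine ⟨rfl, ?_⟩
        cases hb : w'.1.2.1 with
        | false => right; exact ⟨rfl, hz⟩
        | true => left; simp [zp]
  · rintro ⟨h3, h4⟩
    apply (blk_fin hm).subset
    intro t ht
    have key2 : ∀ a b : II S, a.1.1 = (m : ℕ∞) → a.1.2.1 = true → b.1.1 = (m : ℕ∞) →
        li a t → li t b → t.1.1 = (m : ℕ∞) ∧ t.1.2.1 = true := by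
      intro a b ha ha' hb hat htb
      rw [li_iff] at hat htb
      rw [ha, ha'] at hat
      rw [hb] at htb
      rcases hat with hat | ⟨hat, hat'⟩
      · rcases htb with htb | ⟨htb, _⟩
        · exact absurd (lt_trans hat htb) (lt_irrefl _)
        · rw [htb] at hat; exact absurd hat (lt_irrefl _)
      · refine ⟨hat.symm, ?_⟩
        rcases hat' with hat' | ⟨hat', _⟩
        · exact absurd hat' (by cases t.1.2.1 <;> simp)
        · exact hat'.symm
    rcases ht with ⟨ha, hb⟩ | ⟨ha, hb⟩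
    · exact key2 w w' h1 h2 h3 ha hb
    · exact key2 w' w h3 h4 h1 ha hb

theorem cls_false {S : Set ℕ} (w : II S) (h2 : w.1.2.1 = false) :
    {w' | {t | Btw (li (S := S)) w w' t}.Finite}.Infinite := by
  apply infz w.1.1 Set.univ Set.infinite_univ
  intro z _
  show {t | Btw (li (S := S)) w (zp w.1.1 z) t}.Finite
  have hw : w = zp w.1.1 w.1.2.2 := by
    apply Subtype.ext
    exact Prod.ext rfl (Prod.ext h2 rfl)
  apply ((Set.finite_Icc (min w.1.2.2 z) (max w.1.2.2 z)).image (zp (S := S) w.1.1)).subset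
  have key2 : ∀ (x : ℕ∞) (a b : ℤ) (t : II S), li (zp x a) t → li t (zp x b) →
      t = zp x t.1.2.2 ∧ a < t.1.2.2 ∧ t.1.2.2 < b := by
    intro x a b t hat htb
    rw [li_iff] at hat htb
    simp only [zp] at hat htb
    have hx : x = t.1.1 := by
      rcases hat with hat | ⟨hat, _⟩
      · rcases htb with htb | ⟨htb, _⟩
        · exact absurd (lt_trans hat htb) (lt_irrefl _)
        · exact htb.symm
      · exact hat
    rcases hat with hat | ⟨_, hat⟩
    · rw [← hx] at hat; exact absurd hat (lt_irrefl _)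
    rcases htb with htb | ⟨_, htb⟩
    · rw [← hx] at htb; exact absurd htb (lt_irrefl _)
    rcases htb with htb | ⟨hb, htb⟩
    · exact absurd htb (by cases t.1.2.1 <;> simp)
    rcases hat with hat | ⟨_, hat⟩
    · rw [hb] at hat; exact absurd hat (lt_irrefl _)
    refine ⟨?_, hat, htb⟩
    apply Subtype.ext
    exact Prod.ext hx.symm (Prod.ext hb rfl)
  intro t ht
  rcases ht with ⟨ha, hb⟩ | ⟨ha, hb⟩
  · rw [hw] at ha
    obtain ⟨e1, e2, e3⟩ := key2 _ _ _ _ ha hb
    refine ⟨t.1.2.2, ⟨?_, ?_⟩, e1.symm⟩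
    · exact (min_le_left _ _).trans e2.le
    · exact e3.le.trans (le_max_right _ _)
  · rw [hw] at hb
    obtain ⟨e1, e2, e3⟩ := key2 _ _ _ _ ha hb
    refine ⟨t.1.2.2, ⟨?_, ?_⟩, e1.symm⟩
    · exact (min_le_right _ _).trans e2.le
    · exact e3.le.trans (le_max_left _ _)

theorem pf_ORS : T_ORS := by
  intro S
  refine ⟨II S, inferInstance, li, lin_li S, fun k => ⟨inf_above k, inf_below k⟩,
    zp 0 0, zp ⊤ 0, ?_⟩
  ext n
  constructor
  · rintro ⟨w, _, _, hc⟩
    cases hb : w.1.2.1 with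
    | false =>
      have := cls_false w hb
      rw [this.encard_eq] at hc
      exact absurd hc.symm (ENat.natCast_ne_top _)
    | true =>
      rcases w.2 with h3 | ⟨m, hm, h3, h4, h5⟩
      · rw [hb] at h3; exact absurd h3 (by simp)
      · rw [cls_true hm w h3 hb, blk_card hm] at hc
        have : m + 2 = n + 2 := by exact_mod_cast hc
        have h6 : m = n := by omega
        rw [← h6]; exact hm
  · intro hn
    refine ⟨bp hn ⟨0, by omega⟩, ?_, ?_, ?_⟩
    · rw [li_iff]
      rcases Nat.eq_zero_or_pos n with h | h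
      · right
        refine ⟨?_, ?_⟩
        · show (0 : ℕ∞) = (n : ℕ∞)
          rw [h]; rfl
        · left; simp [zp, bp]
      · left
        show (0 : ℕ∞) < (n : ℕ∞)
        exact_mod_cast h
    · rw [li_iff]
      left
      show (n : ℕ∞) < ⊤
      exact lt_top_iff_ne_top.2 (ENat.natCast_ne_top n)
    · rw [cls_true hn _ rfl rfl, blk_card hn]

end Pool.Agent.H51.CO
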